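import Pool.Agent.X170.MillerPos.Modular
import Pool.Agent.X170.MillerPos.Axis

/-!
# MP_e05153_nt, Q1 : no Miller basis form vanishes on the imaginary axis

For every even weight `k = 12 l + k'`, `k' = 4 a + 6 b ∈ {0, 4, 6, 8, 10, 14}`, and every
`0 ≤ m ≤ l`, the Faber polynomial `F_{k,m}` is real and strictly positive on `[1728, ∞)`.

Proof.  With `U = Δ / q`, the identity `q dj/dq = -E₄² E₆ / Δ` (proved here from the Serre
derivatives of `E₄`, `E₆` and from `q dΔ/dq = E₂ Δ`) gives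
`F(x) = [q^(l-m)] U^(-l) E₄^(2-a) E₆^(1-b) / (E₄³ - x Δ)`.  For `x = 1728 + y`, `y ≥ 0`, we have
`E₄³ - x Δ = E₆² - y Δ`, so that `F(x)` is the coefficient of `q^(l-m)` in
`Σ_r y^r q^r U^(r-l) E₄^(2-a) E₆^(-1-b-2r)`, and the powers `U^(-s)` with `s ≥ 0`, `E₄` and
`E₆^(-1) = 1 / (1 - 504 Σ σ₅(n) q^n)` have nonnegative coefficients.
-/

set_option autoImplicit false

open UpperHalfPlane
open scoped MatrixGroups

namespace Pool.Agent.Results.MP_e05153_nt.PositiveOnAxis

/-- The `q`-expansion of `f` is `q^m + O(q^(l+1))`. -/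
def IsMiller {k : ℤ} (l m : ℕ) (f : ModularForm 𝒮ℒ k) : Prop :=
  ∀ n ≤ l, PowerSeries.coeff n (qExpansion 1 f) = if n = m then 1 else 0

/-- `F` is monic of degree `l - m` and `f = Δ^l E₄^a E₆^b F(j)` on the upper half plane, where
`j = E₄³ / Δ`. -/
def IsFaber {k : ℤ} (l m a b : ℕ) (f : ModularForm 𝒮ℒ k) (F : Polynomial ℂ) : Prop :=
  F.Monic ∧ F.natDegree = l - m ∧ ∀ τ : ℍ, f τ = ModularForm.discriminant τ ^ l *
    (ModularForm.E₄ τ ^ a * ModularForm.E₆ τ ^ b) *
      F.eval (ModularForm.E₄ τ ^ 3 / ModularForm.discriminant τ)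

/-- Let `k = 12 l + 4 a + 6 b` with `a ≤ 2`, `b ≤ 1`, and `m ≤ l`.  The Miller basis form `f` of
weight `k` and its Faber polynomial `F` exist and are unique, `F(x)` is a positive real number for
every real `x ≥ 1728`, and the only zero of `f` on the imaginary axis is `τ = i`, when `b = 1`. -/
theorem result (k : ℤ) (l a b m : ℕ) (ha : a ≤ 2) (hb : b ≤ 1) (hm : m ≤ l)
    (hk : k = 12 * l + 4 * a + 6 * b) :
    ∃ f : ModularForm 𝒮ℒ k, ∃ F : Polynomial ℂ,
      (IsMiller l m f ∧ ∀ f' : ModularForm 𝒮ℒ k, IsMiller l m f' → f' = f) ∧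
      (IsFaber l m a b f F ∧ ∀ F' : Polynomial ℂ, IsFaber l m a b f F' → F' = F) ∧
      (∀ x : ℝ, 1728 ≤ x → (F.eval (x : ℂ)).im = 0 ∧ 0 < (F.eval (x : ℂ)).re) ∧
      ∀ τ : ℍ, τ.re = 0 → (f τ = 0 ↔ b = 1 ∧ τ = UpperHalfPlane.I) := by
  open Pool.Agent.X170.MillerPos in
  obtain ⟨F, hF1, hF2, hF3⟩ := exists_faber a b l m hm
  obtain ⟨f, hf⟩ := exists_comb a b l F k hk (l + 1) le_rfl
  have hFl : F.natDegree ≤ l := by omega
  have hq : qExpansion 1 f = form a b l F := by rw [hf, qExpansion_comb]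
  have hfe : ∀ τ : ℍ, f τ = ModularForm.discriminant τ ^ l *
      (ModularForm.E₄ τ ^ a * ModularForm.E₆ τ ^ b) *
        F.eval (ModularForm.E₄ τ ^ 3 / ModularForm.discriminant τ) := by
    intro τ
    have := congrFun hf τ
    rw [this, comb_eq a b l F hFl τ]
    ring
  have hfm : IsMiller l m f := by
    intro n hn
    rw [hq]
    exact hF3 n hn
  have hpos : ∀ x : ℝ, 1728 ≤ x → (F.eval (x : ℂ)).im = 0 ∧ 0 < (F.eval (x : ℂ)).re := by
    intro x hx
    have h := eval_pos a b l m ha hb hm F hFl hF3 x hx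
    rw [Complex.lt_def] at h
    exact ⟨by simpa using h.2.symm, by simpa using h.1⟩
  refine ⟨f, F, ⟨hfm, ?_⟩, ⟨⟨hF1, hF2, hfe⟩, ?_⟩, hpos, ?_⟩
  · intro f' hf'
    have hv : f' - f = 0 := by
      refine vanish l k ?_ (f' - f) ?_
      · rw [hk]
        interval_cases a <;> interval_cases b <;> first
          | (left; push_cast; lia)
          | (right; push_cast; lia)
      · intro n hn
        rw [FunLike.coe_sub, ModularForm.qExpansion_sub one_pos one_mem_strictPeriods_SL, map_sub,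
          hf' n hn, hfm n hn, sub_self]
    exact sub_eq_zero.1 hv
  · rintro F' ⟨h1, h2, h3⟩
    have hFl' : F'.natDegree ≤ l := by omega
    have hf' : (f : ℍ → ℂ) = comb a b l F' (l + 1) := by
      funext τ
      rw [comb_eq a b l F' hFl' τ, h3 τ]
      ring
    have hq' : qExpansion 1 f = form a b l F' := by rw [hf', qExpansion_comb]
    exact form_unique a b l F' F hFl' hFl (fun n _ => by rw [← hq', hq])
  · intro τ h0
    obtain ⟨x, hx, hj⟩ := j_axis τ h0
    obtain ⟨r, hr, hr2⟩ := E4_axis τ h0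
    have hE4 : ModularForm.E₄ τ ≠ 0 := by
      rw [hr2]
      exact_mod_cast hr.ne'
    have hΔ : ModularForm.discriminant τ ≠ 0 := ModularForm.discriminant_ne_zero τ
    have hFx : F.eval (x : ℂ) ≠ 0 := by
      intro h
      have := (hpos x hx).2
      rw [h] at this
      simp at this
    rw [hfe τ, hj, ← E6_axis_zero τ h0]
    constructor
    · intro h
      have h1 : ModularForm.E₆ τ ^ b = 0 := by
        have h2 := (mul_eq_zero.1 h).resolve_right hFx
        have h3 := (mul_eq_zero.1 h2).resolve_left (pow_ne_zero _ hΔ)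
        exact (mul_eq_zero.1 h3).resolve_left (pow_ne_zero _ hE4)
      have h2 : b ≠ 0 := by
        rintro rfl
        simp at h1
      exact ⟨by omega, pow_eq_zero_iff h2 |>.1 h1⟩
    · rintro ⟨rfl, h⟩
      rw [h]
      simp

end Pool.Agent.Results.MP_e05153_nt.PositiveOnAxis
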